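import Mathlib

set_option autoImplicit false
open MeasureTheory Set
open scoped ENNReal NNReal

namespace Pool.Agent.H.MP_925b40_pr

noncomputable def sg (b : Bool) : ℝ := if b then 1 else -1

noncomputable def cl (j : ℕ) (τ : ℝ) : ℝ := min (max (τ - j / 4) 0) (1 / 4)

noncomputable def qq (ε : ℕ → Bool) (τ : ℝ) : ℝ := ∑ j ∈ Finset.range ⌈4 * τ⌉₊, sg (ε j) * cl j τ

theorem abs_sg (b : Bool) : |sg b| = 1 := by cases b <;> simp [sg]

theorem qq_eq (ε : ℕ → Bool) (τ : ℝ) (K : ℕ) (hK : 4 * τ ≤ K) :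
    qq ε τ = ∑ j ∈ Finset.range K, sg (ε j) * cl j τ := by
  unfold qq
  refine Finset.sum_subset (Finset.range_mono (Nat.ceil_le.2 hK)) fun j _ hj => ?_
  have h1 : ⌈4 * τ⌉₊ ≤ j := by simpa using hj
  have h2 : 4 * τ ≤ j := Nat.ceil_le.1 h1
  unfold cl
  rw [max_eq_right (by linarith), min_eq_left (by norm_num), mul_zero]

theorem sum_cl (τ : ℝ) (h : 0 ≤ τ) (K : ℕ) : ∑ j ∈ Finset.range K, cl j τ = min τ (K / 4) := by
  induction K with
  | zero => simp [h]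
  | succ K ih =>
    rw [Finset.sum_range_succ, ih]
    unfold cl
    push_cast
    simp only [min_def, max_def]
    split_ifs <;> linarith

theorem cl_mono (j : ℕ) {σ τ : ℝ} (h : σ ≤ τ) : cl j σ ≤ cl j τ :=
  min_le_min (max_le_max (by linarith) le_rfl) le_rfl

theorem qq_lip' (ε : ℕ → Bool) {σ τ : ℝ} (h0 : 0 ≤ σ) (h : σ ≤ τ) : |qq ε τ - qq ε σ| ≤ τ - σ := by
  obtain ⟨K, hK⟩ := exists_nat_ge (4 * τ)
  rw [qq_eq ε τ K hK, qq_eq ε σ K (by linarith), ← Finset.sum_sub_distrib]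
  refine (Finset.abs_sum_le_sum_abs _ _).trans ?_
  have : ∀ j ∈ Finset.range K, |sg (ε j) * cl j τ - sg (ε j) * cl j σ| = cl j τ - cl j σ := by
    intro j _
    rw [← mul_sub, abs_mul, abs_sg, one_mul, abs_of_nonneg (sub_nonneg.2 (cl_mono j h))]
  rw [Finset.sum_congr rfl this, Finset.sum_sub_distrib, sum_cl τ (h0.trans h), sum_cl σ h0,
    min_eq_left (by linarith), min_eq_left (by linarith)]

theorem qq_lip (ε : ℕ → Bool) : LipschitzWith 1 fun τ : ℝ≥0 => ((qq ε τ : ℝ) : UnitAddCircle) := by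
  refine LipschitzWith.of_dist_le_mul fun σ τ => ?_
  rw [NNReal.coe_one, one_mul, dist_eq_norm, ← AddCircle.coe_sub, NNReal.dist_eq]
  refine QuotientAddGroup.norm_mk_le_norm.trans ?_
  rw [Real.norm_eq_abs]
  rcases le_total (σ : ℝ) τ with h | h
  · rw [abs_sub_comm, abs_sub_comm (σ : ℝ)]
    exact (qq_lip' ε σ.2 h).trans (le_abs_self _)
  · exact (qq_lip' ε τ.2 h).trans (le_abs_self _)

theorem qq_eval (ε : ℕ → Bool) (k : ℕ) (x : ℝ) (h0 : 0 ≤ x) (h1 : x ≤ 1 / 4) :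
    qq ε (k / 4 + x) = ∑ j ∈ Finset.range k, sg (ε j) / 4 + sg (ε k) * x := by
  rw [qq_eq ε _ (k + 1) (by push_cast; linarith), Finset.sum_range_succ]
  congr 1
  · refine Finset.sum_congr rfl fun j hj => ?_
    have : (j : ℝ) + 1 ≤ k := by exact_mod_cast Finset.mem_range.1 hj
    unfold cl
    rw [min_eq_right (le_max_of_le_left (by linarith))]
    ring
  · unfold cl
    rw [add_sub_cancel_left, max_eq_left h0, min_eq_left h1]

noncomputable def Phi (ε : ℕ → Bool) : C(ℝ≥0, UnitAddCircle) :=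
  ⟨fun τ => ((qq ε τ : ℝ) : UnitAddCircle), (qq_lip ε).continuous⟩

theorem Phi_zero (ε : ℕ → Bool) : Phi ε 0 = 0 := by
  simp [Phi, qq]

theorem continuous_Phi : Continuous Phi := by
  refine ContinuousMap.continuous_of_continuous_uncurry _ ?_
  refine continuous_prod_of_continuous_lipschitzWith' _ 1 (fun ε => qq_lip ε) fun τ => ?_
  change Continuous fun ε : ℕ → Bool => ((qq ε τ : ℝ) : UnitAddCircle)
  refine (AddCircle.continuous_mk' 1).comp ?_
  unfold qq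
  refine continuous_finsetSum _ fun j _ => ?_
  exact ((continuous_of_discreteTopology (f := sg)).comp (continuous_apply j)).mul continuous_const

theorem lint_aff (c d α β : ℝ) (hcd : c ≤ d) (h : ∀ a ∈ Ioc c d, 0 ≤ α + β * a) :
    ∫⁻ a in Ioc c d, ENNReal.ofReal (α + β * a)
      = ENNReal.ofReal (α * (d - c) + β * ((d ^ 2 - c ^ 2) / 2)) := by
  have hc : Continuous fun a : ℝ => α + β * a := by fun_prop
  rw [← ofReal_integral_eq_lintegral_ofReal (hc.integrableOn_Icc.mono_set Ioc_subset_Icc_self)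
    ((ae_restrict_iff' measurableSet_Ioc).2 (Filter.Eventually.of_forall h)),
    ← intervalIntegral.integral_of_le hcd]
  congr 1
  rw [intervalIntegral.integral_add (by simp) (Continuous.intervalIntegrable (by fun_prop) _ _),
    intervalIntegral.integral_const_mul, integral_id]
  simp [mul_comm]

noncomputable def TT (f g : C(ℝ≥0, UnitAddCircle)) (a : UnitAddCircle) : ℝ≥0∞ :=
  ⨅ (τ : ℝ≥0) (_ : a + f τ = g τ), ((τ : ℝ≥0∞))

def SS (ε₁ ε₂ : ℕ → Bool) (k : ℕ) : ℤ :=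
  ∑ j ∈ Finset.range k, ((if ε₂ j then 1 else 0) - (if ε₁ j then 1 else 0))

def Cov (ε₁ ε₂ : ℕ → Bool) (k h : ℕ) : Prop :=
  ε₁ k ≠ ε₂ k ∧ (SS ε₁ ε₂ k + (if ε₂ k then 0 else 1) - h) % 2 = 0

theorem TT_le (ε₁ ε₂ : ℕ → Bool) (k : ℕ) (x a : ℝ) (h0 : 0 ≤ x) (h1 : x ≤ 1 / 4) (m : ℤ)
    (h : a + m = SS ε₁ ε₂ k / 2 + (sg (ε₂ k) - sg (ε₁ k)) * x) :
    TT (Phi ε₁) (Phi ε₂) (a : UnitAddCircle) ≤ ENNReal.ofReal (k / 4 + x) := by
  have hp : 0 ≤ (k : ℝ) / 4 + x := by positivity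
  unfold TT
  refine iInf_le_of_le ⟨k / 4 + x, hp⟩ (iInf_le_of_le ?_ ?_)
  · change (a : UnitAddCircle) + ((qq ε₁ (k / 4 + x) : ℝ) : UnitAddCircle)
      = ((qq ε₂ (k / 4 + x) : ℝ) : UnitAddCircle)
    rw [← sub_eq_zero, ← AddCircle.coe_add, ← AddCircle.coe_sub, AddCircle.coe_eq_zero_iff]
    refine ⟨-m, ?_⟩
    rw [qq_eval _ _ _ h0 h1, qq_eval _ _ _ h0 h1]
    have : (SS ε₁ ε₂ k : ℝ) / 2
        = ∑ j ∈ Finset.range k, sg (ε₂ j) / 4 - ∑ j ∈ Finset.range k, sg (ε₁ j) / 4 := by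
      unfold SS
      push_cast
      rw [Finset.sum_div, ← Finset.sum_sub_distrib]
      refine Finset.sum_congr rfl fun j _ => ?_
      cases ε₁ j <;> cases ε₂ j <;> simp [sg] <;> norm_num
    simp only [zsmul_eq_mul, mul_one, Int.cast_neg]
    linarith
  · rw [ENNReal.ofReal_eq_coe_nnreal hp]
    exact le_rfl

theorem cov_le (ε₁ ε₂ : ℕ → Bool) (k h : ℕ) (hc : Cov ε₁ ε₂ k h) :
    ∫⁻ a in Ioc ((h : ℝ) / 2) (h / 2 + 1 / 2), TT (Phi ε₁) (Phi ε₂) (a : UnitAddCircle)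
      ≤ ENNReal.ofReal ((2 * k + 1) / 16) := by
  obtain ⟨h1, h2⟩ := hc
  obtain ⟨m, hm⟩ := Int.dvd_of_emod_eq_zero h2
  have hk : (0 : ℝ) ≤ k := by positivity
  cases h3 : ε₂ k
  · have h4 : ε₁ k = true := by simpa [h3] using h1
    simp only [h3, Bool.false_eq_true, if_false] at hm
    have hm' : (SS ε₁ ε₂ k : ℝ) + 1 - h = 2 * m := by exact_mod_cast hm
    refine (setLIntegral_mono' measurableSet_Ioc
      (g := fun a => ENNReal.ofReal ((k / 4 + h / 4 + 1 / 4) + (-1 / 2) * a)) fun a ha => ?_).trans ?_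
    · have := TT_le ε₁ ε₂ k (h / 4 + 1 / 4 - a / 2) a (by linarith [ha.2]) (by linarith [ha.1]) (m - 1)
        (by rw [h3, h4]; simp only [sg]; norm_num; linarith)
      refine this.trans (le_of_eq ?_)
      congr 1; ring
    · rw [lint_aff _ _ _ _ (by linarith) fun a ha => by linarith [ha.2]]
      refine le_of_eq ?_
      congr 1; ring
  · have h4 : ε₁ k = false := by simpa [h3] using h1
    simp only [h3, if_true] at hm
    have hm' : (SS ε₁ ε₂ k : ℝ) + 0 - h = 2 * m := by exact_mod_cast hm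
    refine (setLIntegral_mono' measurableSet_Ioc
      (g := fun a => ENNReal.ofReal ((k / 4 - h / 4) + (1 / 2) * a)) fun a ha => ?_).trans ?_
    · have := TT_le ε₁ ε₂ k (a / 2 - h / 4) a (by linarith [ha.1]) (by linarith [ha.2]) (m)
        (by rw [h3, h4]; simp only [sg]; norm_num; linarith)
      refine this.trans (le_of_eq ?_)
      congr 1; ring
    · rw [lint_aff _ _ _ _ (by linarith) fun a ha => by linarith [ha.1]]
      refine le_of_eq ?_
      congr 1; ring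

theorem split_le (F : UnitAddCircle → ℝ≥0∞) :
    ∫⁻ a, F a ≤ (∫⁻ a in Ioc (((0 : ℕ) : ℝ) / 2) ((0 : ℕ) / 2 + 1 / 2), F (a : UnitAddCircle))
      + ∫⁻ a in Ioc (((1 : ℕ) : ℝ) / 2) ((1 : ℕ) / 2 + 1 / 2), F (a : UnitAddCircle) := by
  rw [← UnitAddCircle.lintegral_preimage 0 F]
  refine le_trans (lintegral_mono_set ?_) (lintegral_union_le _ _ _)
  intro a ha
  simp only [mem_union, mem_Ioc] at ha ⊢
  push_cast
  by_cases h : a ≤ 1 / 2
  · left; constructor <;> linarith [ha.1]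
  · right; constructor <;> linarith [ha.2]

end Pool.Agent.H.MP_925b40_pr
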