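import Mathlib
import Pool.Agent.H.MP_925b40_pr.Path

set_option autoImplicit false
open MeasureTheory Set
open scoped ENNReal NNReal

namespace Pool.Agent.H.MP_925b40_pr

noncomputable def PP : Measure (ℕ → Bool) :=
  Measure.infinitePi (fun _ : ℕ => (PMF.uniformOfFintype Bool).toMeasure)

instance : IsProbabilityMeasure PP := by unfold PP; infer_instance

def Cyl (k : ℕ) (η : ℕ → Bool) : Set (ℕ → Bool) := {ω | ∀ j < k, ω j = η j}

theorem Cyl_eq (k : ℕ) (η : ℕ → Bool) : Cyl k η = Set.pi (Finset.range k) fun j => {η j} := by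
  ext ω; simp [Cyl]

theorem measurableSet_Cyl (k : ℕ) (η : ℕ → Bool) : MeasurableSet (Cyl k η) := by
  rw [Cyl_eq]
  exact MeasurableSet.pi (Finset.countable_toSet _) fun _ _ => measurableSet_singleton _

theorem coin (b : Bool) : (PMF.uniformOfFintype Bool).toMeasure {b} = 2⁻¹ := by
  rw [PMF.toMeasure_apply_singleton _ _ (measurableSet_singleton _)]
  simp

theorem PP_Cyl (k : ℕ) (η : ℕ → Bool) : PP (Cyl k η) = 2⁻¹ ^ k := by
  rw [Cyl_eq, PP, Measure.infinitePi_pi _ fun _ _ => measurableSet_singleton _]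
  simp

theorem PP_eval (k : ℕ) (b : Bool) : PP {ω | ω k = b} = 2⁻¹ := by
  have : {ω : ℕ → Bool | ω k = b} = Set.pi ({k} : Finset ℕ) fun _ => {b} := by
    ext ω; simp
  rw [this, PP, Measure.infinitePi_pi _ fun _ _ => measurableSet_singleton _]
  simp

theorem geo : ∑' k : ℕ, (2⁻¹ : ℝ≥0∞) ^ (k + 1) = 1 := by
  rw [ENNReal.tsum_geometric_add_one, ENNReal.one_sub_inv_two, inv_inv,
    ENNReal.inv_mul_cancel (by simp) (by simp)]

noncomputable def NN (ω₁ ω₂ : ℕ → Bool) : ℝ≥0∞ := ∑' k, (Cyl (k + 1) ω₁).indicator 1 ω₂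

noncomputable def XX (b : Bool) (ω₁ ω₂ : ℕ → Bool) : ℝ≥0∞ :=
  ∑' k, {ω : ℕ → Bool | ω k = b}.indicator 1 ω₁ *
    (Cyl (k + 1) (Function.update ω₁ k (!ω₁ k))).indicator 1 ω₂

theorem measurable_NN (ω₁ : ℕ → Bool) : Measurable (NN ω₁) :=
  Measurable.tsum fun _ => measurable_one.indicator (measurableSet_Cyl _ _)

theorem measurable_XX (b : Bool) (ω₁ : ℕ → Bool) : Measurable (XX b ω₁) :=
  Measurable.tsum fun _ => (measurable_one.indicator (measurableSet_Cyl _ _)).const_mul _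

theorem lint_NN (ω₁ : ℕ → Bool) : ∫⁻ ω₂, NN ω₁ ω₂ ∂PP = 1 := by
  unfold NN
  rw [lintegral_tsum fun _ => (measurable_one.indicator (measurableSet_Cyl _ _)).aemeasurable]
  simp_rw [lintegral_indicator_one (measurableSet_Cyl _ _), PP_Cyl]
  exact geo

theorem mset (k : ℕ) (b : Bool) : MeasurableSet {ω : ℕ → Bool | ω k = b} :=
  (measurable_pi_apply k : Measurable fun ω : ℕ → Bool => ω k) (measurableSet_singleton b)

theorem lint_XX (b : Bool) (ω₁ : ℕ → Bool) : ∫⁻ ω₂, XX b ω₁ ω₂ ∂PP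
    = ∑' k, {ω : ℕ → Bool | ω k = b}.indicator 1 ω₁ * 2⁻¹ ^ (k + 1) := by
  unfold XX
  rw [lintegral_tsum fun _ =>
    ((measurable_one.indicator (measurableSet_Cyl _ _)).const_mul _).aemeasurable]
  refine tsum_congr fun k => ?_
  rw [lintegral_const_mul _ (measurable_one.indicator (measurableSet_Cyl _ _)),
    lintegral_indicator_one (measurableSet_Cyl _ _), PP_Cyl]

def Good (B : (ℕ → Bool) → (ℕ → Bool) → ℝ≥0∞) (c : ℝ≥0∞) : Prop :=
  (∀ ω₁, Measurable (B ω₁)) ∧ Measurable (fun ω₁ => ∫⁻ ω₂, B ω₁ ω₂ ∂PP) ∧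
    ∫⁻ ω₁, ∫⁻ ω₂, B ω₁ ω₂ ∂PP ∂PP = c

theorem Good.add {B B' : (ℕ → Bool) → (ℕ → Bool) → ℝ≥0∞} {c c' : ℝ≥0∞} (h : Good B c)
    (h' : Good B' c') : Good (fun ω₁ ω₂ => B ω₁ ω₂ + B' ω₁ ω₂) (c + c') := by
  refine ⟨fun ω₁ => (h.1 ω₁).add (h'.1 ω₁), ?_, ?_⟩
  · simp_rw [lintegral_add_left (h.1 _)]
    exact h.2.1.add h'.2.1
  · simp_rw [lintegral_add_left (h.1 _)]
    rw [lintegral_add_left h.2.1, h.2.2, h'.2.2]

theorem Good.mul {B : (ℕ → Bool) → (ℕ → Bool) → ℝ≥0∞} {c : ℝ≥0∞} (h : Good B c) (r : ℝ≥0∞) :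
    Good (fun ω₁ ω₂ => r * B ω₁ ω₂) (r * c) := by
  refine ⟨fun ω₁ => (h.1 ω₁).const_mul r, ?_, ?_⟩
  · simp_rw [lintegral_const_mul r (h.1 _)]
    exact h.2.1.const_mul r
  · simp_rw [lintegral_const_mul r (h.1 _)]
    rw [lintegral_const_mul r h.2.1, h.2.2]

theorem good_const (c : ℝ≥0∞) : Good (fun _ _ => c) c := by
  refine ⟨fun _ => measurable_const, ?_, ?_⟩ <;> simp

theorem good_NN : Good NN 1 := by
  refine ⟨measurable_NN, ?_, ?_⟩ <;> simp [lint_NN]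

theorem good_XX (b : Bool) : Good (XX b) 2⁻¹ := by
  refine ⟨measurable_XX b, ?_, ?_⟩
  · simp_rw [lint_XX]
    exact Measurable.tsum fun k => (measurable_one.indicator (mset k b)).mul_const _
  · simp_rw [lint_XX]
    rw [lintegral_tsum fun k => ((measurable_one.indicator (mset k b)).mul_const _).aemeasurable]
    simp_rw [lintegral_mul_const _ (measurable_one.indicator (mset _ b)),
      lintegral_indicator_one (mset _ b), PP_eval]
    rw [ENNReal.tsum_mul_left, geo, mul_one]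

theorem NN_eq (ω₁ ω₂ : ℕ → Bool) (N : ℕ) (h : ∀ j < N, ω₂ j = ω₁ j) : (N : ℝ≥0∞) ≤ NN ω₁ ω₂ := by
  refine le_trans (le_of_eq ?_) (ENNReal.sum_le_tsum (Finset.range N))
  rw [Finset.sum_congr rfl (g := fun _ => 1), Finset.sum_const, Finset.card_range, nsmul_eq_mul,
    mul_one]
  intro k hk
  have := Finset.mem_range.1 hk
  rw [Set.indicator_of_mem (show ω₂ ∈ Cyl (k + 1) ω₁ from fun j hj => h j (by omega))]
  rfl

theorem XX_ge (ω₁ ω₂ : ℕ → Bool) (N : ℕ) (h : ∀ j < N, ω₂ j = ω₁ j) (h' : ω₂ N ≠ ω₁ N) :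
    1 ≤ XX (ω₁ N) ω₁ ω₂ := by
  refine le_trans (le_of_eq ?_) (ENNReal.le_tsum N)
  rw [Set.indicator_of_mem (by simp), Set.indicator_of_mem]
  · simp
  · intro j hj
    rcases (Nat.lt_succ_iff.1 hj).eq_or_lt with rfl | hj
    · rw [Function.update_self]
      revert h'
      cases ω₁ j <;> cases ω₂ j <;> simp
    · rw [Function.update_of_ne hj.ne, h j hj]

theorem NN_le (ω₁ ω₂ : ℕ → Bool) (r c R : ℝ≥0∞)
    (h : ∀ N : ℕ, (∀ j < N, ω₂ j = ω₁ j) → c + r * N ≤ R) : c + r * NN ω₁ ω₂ ≤ R := by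
  have key : ∀ K : ℕ, ∃ N : ℕ, N ≤ K ∧ (∀ j < N, ω₂ j = ω₁ j) ∧
      ∑ k ∈ Finset.range K, (Cyl (k + 1) ω₁).indicator (1 : (ℕ → Bool) → ℝ≥0∞) ω₂ ≤ N := by
    intro K
    induction K with
    | zero => exact ⟨0, le_rfl, by simp, by simp⟩
    | succ K ih =>
      obtain ⟨N, h1, h2, h3⟩ := ih
      rw [Finset.sum_range_succ]
      by_cases hK : ω₂ ∈ Cyl (K + 1) ω₁
      · refine ⟨K + 1, le_rfl, hK, ?_⟩
        rw [Set.indicator_of_mem hK]
        push_cast
        exact add_le_add (h3.trans (by exact_mod_cast h1)) le_rfl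
      · exact ⟨N, by omega, h2, by rw [Set.indicator_of_notMem hK, add_zero]; exact h3⟩
  unfold NN
  rw [ENNReal.tsum_eq_iSup_nat, ENNReal.mul_iSup, ENNReal.add_iSup]
  refine iSup_le fun K => ?_
  obtain ⟨N, -, h2, h3⟩ := key K
  exact le_trans (by gcongr) (h N h2)

def ext (p ω : ℕ → Bool) : ℕ → Bool := fun j => if j < 6 then p j else ω ((j - 6) / 2)

theorem continuous_ext (p : ℕ → Bool) : Continuous (ext p) := by
  refine continuous_pi fun j => ?_
  unfold ext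
  split_ifs
  · exact continuous_const
  · exact continuous_apply _

theorem SS_ext (p₁ p₂ ω₁ ω₂ : ℕ → Bool) (k : ℕ) (hk : k ≤ 6) :
    SS (ext p₁ ω₁) (ext p₂ ω₂) k = SS p₁ p₂ k := by
  unfold SS
  refine Finset.sum_congr rfl fun j hj => ?_
  have : j < 6 := by have := Finset.mem_range.1 hj; omega
  simp [ext, this]

theorem Cov_ext (p₁ p₂ ω₁ ω₂ : ℕ → Bool) (k h : ℕ) (hk : k < 6) (hc : Cov p₁ p₂ k h) :
    Cov (ext p₁ ω₁) (ext p₂ ω₂) k h := by
  unfold Cov at hc ⊢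
  rw [SS_ext _ _ _ _ _ hk.le]
  simpa [ext, hk] using hc

theorem SS_tail (p₁ p₂ ω₁ ω₂ : ℕ → Bool) (N : ℕ) (h : ∀ j < N, ω₂ j = ω₁ j) (m : ℕ)
    (hm : m ≤ 2 * N) : SS (ext p₁ ω₁) (ext p₂ ω₂) (6 + m) = SS p₁ p₂ 6 := by
  induction m with
  | zero => exact SS_ext _ _ _ _ _ le_rfl
  | succ m ih =>
    rw [← ih (by omega), ← add_assoc]
    unfold SS
    rw [Finset.sum_range_succ]
    have : ext p₂ ω₂ (6 + m) = ext p₁ ω₁ (6 + m) := by
      simp only [ext, show ¬ (6 + m < 6) by omega, if_false, Nat.add_sub_cancel_left]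
      exact h _ (by omega)
    rw [this]; simp

theorem tail_le (p₁ p₂ : ℕ → Bool) (h : ℕ) : ∃ B, Good B (ENNReal.ofReal (18 / 16)) ∧ ∀ ω₁ ω₂,
    ∫⁻ a in Ioc ((h : ℝ) / 2) (h / 2 + 1 / 2),
      TT (Phi (ext p₁ ω₁)) (Phi (ext p₂ ω₂)) (a : UnitAddCircle) ≤ B ω₁ ω₂ := by
  set b : Bool := decide ((SS p₁ p₂ 6 - h) % 2 = 0) with hb
  have hg := ((good_const (ENNReal.ofReal (13 / 16))).add (good_NN.mul (ENNReal.ofReal (1 / 4)))).add
    ((good_XX b).mul (ENNReal.ofReal (1 / 8)))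
  have e : ENNReal.ofReal (13 / 16) + ENNReal.ofReal (1 / 4) * 1 + ENNReal.ofReal (1 / 8) * 2⁻¹
      = ENNReal.ofReal (18 / 16) := by
    have : (2⁻¹ : ℝ≥0∞) = ENNReal.ofReal (1 / 2) := by
      rw [ENNReal.ofReal_div_of_pos (by norm_num)]; simp
    rw [this, mul_one, ← ENNReal.ofReal_mul (by norm_num), ← ENNReal.ofReal_add (by norm_num) (by norm_num),
      ← ENNReal.ofReal_add (by norm_num) (by norm_num)]
    norm_num
  rw [e] at hg
  refine ⟨_, hg, fun ω₁ ω₂ => ?_⟩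
  by_cases hex : ∃ N, ω₂ N ≠ ω₁ N
  · classical
    set N := Nat.find hex with hN
    have h1 : ω₂ N ≠ ω₁ N := Nat.find_spec hex
    have h2 : ∀ j < N, ω₂ j = ω₁ j := fun j hj => by simpa using Nat.find_min hex hj
    have h3 := NN_eq ω₁ ω₂ N h2
    have h4 := XX_ge ω₁ ω₂ N h2 h1
    have e1 : ∀ (p ω : ℕ → Bool), ext p ω (6 + 2 * N) = ω N := by
      intro p ω
      simp only [ext, show ¬ (6 + 2 * N < 6) by omega, if_false, Nat.add_sub_cancel_left]
      congr 1; omega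
    have e2 : ∀ (p ω : ℕ → Bool), ext p ω (6 + 2 * N + 1) = ω N := by
      intro p ω
      simp only [ext, show ¬ (6 + 2 * N + 1 < 6) by omega, if_false]
      congr 1; omega
    have e3 := SS_tail p₁ p₂ ω₁ ω₂ N h2 (2 * N) le_rfl
    have e4 : SS (ext p₁ ω₁) (ext p₂ ω₂) (6 + 2 * N + 1) = SS p₁ p₂ 6
        + ((if ω₂ N then 1 else 0) - (if ω₁ N then 1 else 0)) := by
      rw [← e3]
      unfold SS
      rw [Finset.sum_range_succ, e1, e1]
    have hN0 : (0 : ℝ) ≤ N := by positivity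
    by_cases hc : ω₁ N = b
    · have : Cov (ext p₁ ω₁) (ext p₂ ω₂) (6 + 2 * N + 1) h := by
        unfold Cov
        rw [e2, e2, e4]
        refine ⟨h1.symm, ?_⟩
        rw [hb] at hc
        revert h1 hc
        cases ω₁ N <;> cases ω₂ N <;> simp <;> omega
      refine (cov_le _ _ _ _ this).trans ?_
      rw [hc] at h4
      calc _ = ENNReal.ofReal (13 / 16) + ENNReal.ofReal (1 / 4) * (N : ℝ≥0∞)
            + ENNReal.ofReal (1 / 8) * 1 := by
            rw [mul_one, ← ENNReal.ofReal_natCast N, ← ENNReal.ofReal_mul (by norm_num),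
              ← ENNReal.ofReal_add (by norm_num) (by positivity),
              ← ENNReal.ofReal_add (by positivity) (by norm_num)]
            congr 1; push_cast; ring
        _ ≤ _ := by gcongr
    · have : Cov (ext p₁ ω₁) (ext p₂ ω₂) (6 + 2 * N) h := by
        unfold Cov
        rw [e1, e1, e3]
        refine ⟨h1.symm, ?_⟩
        rw [hb] at hc
        revert h1 hc
        cases ω₁ N <;> cases ω₂ N <;> simp <;> omega
      refine (cov_le _ _ _ _ this).trans ?_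
      calc _ = ENNReal.ofReal (13 / 16) + ENNReal.ofReal (1 / 4) * (N : ℝ≥0∞) := by
            rw [← ENNReal.ofReal_natCast N, ← ENNReal.ofReal_mul (by norm_num),
              ← ENNReal.ofReal_add (by norm_num) (by positivity)]
            congr 1; push_cast; ring
        _ ≤ ENNReal.ofReal (13 / 16) + ENNReal.ofReal (1 / 4) * NN ω₁ ω₂ := by gcongr
        _ ≤ _ := le_self_add
  · push Not at hex
    have : NN ω₁ ω₂ = ⊤ := ENNReal.eq_top_of_forall_nnreal_le fun r => by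
      obtain ⟨N, hN⟩ := exists_nat_ge r
      exact le_trans (by exact_mod_cast hN) (NN_eq ω₁ ω₂ N fun j _ => hex j)
    simp only [this]
    rw [ENNReal.mul_top (by simp)]
    simp

theorem lower (ω₁ ω₂ : ℕ → Bool) (N : ℕ) (h : ∀ j < N, ω₂ j = ω₁ j) (a : ℝ) (ha : a ∈ Ioo (0 : ℝ) 1)
    (τ : ℝ) (hτ : 0 ≤ τ)
    (he : (a : UnitAddCircle) + (((∑ j ∈ Finset.range ⌊2 * τ⌋₊, (if ω₁ j then (1 / 2 : ℝ) else -1 / 2))
        + (if ω₁ ⌊2 * τ⌋₊ then (1 : ℝ) else -1) * (τ - (⌊2 * τ⌋₊ : ℝ) / 2) : ℝ) : UnitAddCircle)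
      = (((∑ j ∈ Finset.range ⌊2 * τ⌋₊, (if ω₂ j then (1 / 2 : ℝ) else -1 / 2))
        + (if ω₂ ⌊2 * τ⌋₊ then (1 : ℝ) else -1) * (τ - (⌊2 * τ⌋₊ : ℝ) / 2) : ℝ) : UnitAddCircle)) :
    N / 2 + (if ω₁ N then (1 - a) / 2 else a / 2) ≤ τ := by
  have f1 : (⌊2 * τ⌋₊ : ℝ) ≤ 2 * τ := Nat.floor_le (by linarith)
  have f2 : 2 * τ < ⌊2 * τ⌋₊ + 1 := Nat.lt_floor_add_one _
  generalize ⌊2 * τ⌋₊ = m at he f1 f2
  obtain ⟨a0, a1⟩ := ha
  rcases Nat.lt_or_ge N m with hm | hm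
  · have : (N : ℝ) + 1 ≤ m := by exact_mod_cast hm
    split_ifs <;> linarith
  have hs : ∑ j ∈ Finset.range m, (if ω₂ j then (1 / 2 : ℝ) else -1 / 2)
      = ∑ j ∈ Finset.range m, (if ω₁ j then (1 / 2 : ℝ) else -1 / 2) :=
    Finset.sum_congr rfl fun j hj => by rw [h j (by have := Finset.mem_range.1 hj; omega)]
  rw [hs, ← sub_eq_zero, ← AddCircle.coe_add, ← AddCircle.coe_sub, AddCircle.coe_eq_zero_iff] at he
  obtain ⟨n, hn⟩ := he
  simp only [zsmul_eq_mul, mul_one] at hn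
  have hint : ∀ c : ℤ, (c : ℝ) < n → (n : ℝ) < c + 2 → (n : ℝ) = c + 1 := by
    intro c h1 h2
    have h1' : c < n := by exact_mod_cast h1
    have h2' : n < c + 2 := by exact_mod_cast h2
    have : n = c + 1 := by omega
    exact_mod_cast this
  by_cases hm' : ω₂ m = ω₁ m
  · rw [hm'] at hn
    have := hint 0 (by push_cast; linarith) (by push_cast; linarith)
    push_cast at this
    linarith
  have hmN : m = N := by
    by_contra hc
    exact hm' (h m (by omega))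
  subst hmN
  cases h1 : ω₁ m <;> cases h2 : ω₂ m <;> simp only [h1, h2] at hm' hn ⊢
  · exact absurd trivial hm'
  · simp only [Bool.false_eq_true, if_false, if_true] at hn ⊢
    have := hint (-1) (by push_cast; linarith) (by push_cast; linarith)
    push_cast at this
    linarith
  · simp only [Bool.false_eq_true, if_false, if_true] at hn ⊢
    have := hint 0 (by push_cast; linarith) (by push_cast; linarith)
    push_cast at this
    linarith
  · exact absurd trivial hm'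

end Pool.Agent.H.MP_925b40_pr
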