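import Mathlib
import Pool.Agent.H.MP_925b40_pr.Coin

set_option autoImplicit false
open MeasureTheory Set
open scoped ENNReal NNReal

namespace Pool.Agent.H.MP_925b40_pr

instance (ε₁ ε₂ : ℕ → Bool) (k h : ℕ) : Decidable (Cov ε₁ ε₂ k h) := by
  unfold Cov; infer_instance

def pre (i : Fin 10) : ℕ → Bool := Nat.testBit (![0, 48, 8, 60, 22, 25, 37, 3, 15, 63] i)

def wt (i j : Fin 10) (h : ℕ) : ℕ :=
  if Cov (pre i) (pre j) 0 h then 1 else if Cov (pre i) (pre j) 1 h then 3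
  else if Cov (pre i) (pre j) 2 h then 5 else if Cov (pre i) (pre j) 3 h then 7
  else if Cov (pre i) (pre j) 4 h then 9 else if Cov (pre i) (pre j) 5 h then 11 else 18

theorem wt_sum : ∑ i, ∑ j, (wt i j 0 + wt i j 1) = 1190 := by decide +kernel

theorem half_le (i j : Fin 10) (h : ℕ) : ∃ B, Good B (ENNReal.ofReal (wt i j h / 16)) ∧ ∀ ω₁ ω₂,
    ∫⁻ a in Ioc ((h : ℝ) / 2) (h / 2 + 1 / 2),
      TT (Phi (ext (pre i) ω₁)) (Phi (ext (pre j) ω₂)) (a : UnitAddCircle) ≤ B ω₁ ω₂ := by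
  have key : ∀ k < 6, Cov (pre i) (pre j) k h → ∃ B, Good B (ENNReal.ofReal (((2 * k + 1 : ℕ) : ℝ) / 16))
      ∧ ∀ ω₁ ω₂, ∫⁻ a in Ioc ((h : ℝ) / 2) (h / 2 + 1 / 2),
      TT (Phi (ext (pre i) ω₁)) (Phi (ext (pre j) ω₂)) (a : UnitAddCircle) ≤ B ω₁ ω₂ := by
    intro k hk hc
    refine ⟨_, good_const _, fun ω₁ ω₂ => ?_⟩
    push_cast
    exact cov_le _ _ _ _ (Cov_ext _ _ _ _ k h hk hc)
  unfold wt
  split_ifs with h0 h1 h2 h3 h4 h5
  · exact key 0 (by norm_num) h0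
  · exact key 1 (by norm_num) h1
  · exact key 2 (by norm_num) h2
  · exact key 3 (by norm_num) h3
  · exact key 4 (by norm_num) h4
  · exact key 5 (by norm_num) h5
  · simpa using tail_le (pre i) (pre j) h

theorem pair_le (i j : Fin 10) : ∃ B, Good B (ENNReal.ofReal ((wt i j 0 + wt i j 1 : ℕ) / 16)) ∧
    ∀ ω₁ ω₂, ∫⁻ a, TT (Phi (ext (pre i) ω₁)) (Phi (ext (pre j) ω₂)) a ≤ B ω₁ ω₂ := by
  obtain ⟨B, h1, h2⟩ := half_le i j 0
  obtain ⟨B', h1', h2'⟩ := half_le i j 1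
  have := h1.add h1'
  rw [← ENNReal.ofReal_add (by positivity) (by positivity), ← add_div] at this
  push_cast
  exact ⟨_, this, fun ω₁ ω₂ => (split_le _).trans (add_le_add (h2 ω₁ ω₂) (h2' ω₁ ω₂))⟩

theorem upper : ∃ μ : @Measure C(ℝ≥0, UnitAddCircle) (borel C(ℝ≥0, UnitAddCircle)),
    IsProbabilityMeasure μ ∧ (∀ᵐ (f : C(ℝ≥0, UnitAddCircle)) ∂μ, LipschitzWith 1 (⇑f) ∧ f 0 = 0) ∧
    ∫⁻ f, ∫⁻ g, ∫⁻ a, TT f g a ∂volume ∂μ ∂μ ≤ ENNReal.ofReal (119 / 160) := by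
  letI : MeasurableSpace C(ℝ≥0, UnitAddCircle) := borel _
  haveI : BorelSpace C(ℝ≥0, UnitAddCircle) := ⟨rfl⟩
  have hm : ∀ i, Measurable fun ω => Phi (ext (pre i) ω) := fun i =>
    (continuous_Phi.comp (continuous_ext _)).measurable
  let μ : Measure C(ℝ≥0, UnitAddCircle) :=
    ∑ i : Fin 10, (10⁻¹ : ℝ≥0∞) • PP.map fun ω => Phi (ext (pre i) ω)
  have hle : ∀ F : C(ℝ≥0, UnitAddCircle) → ℝ≥0∞,
      ∫⁻ f, F f ∂μ ≤ ∑ i : Fin 10, 10⁻¹ * ∫⁻ ω, F (Phi (ext (pre i) ω)) ∂PP := by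
    intro F
    rw [lintegral_finsetSum_measure]
    refine Finset.sum_le_sum fun i _ => ?_
    rw [lintegral_smul_measure, smul_eq_mul]
    exact mul_le_mul_right (lintegral_map_le _ _) _
  refine ⟨μ, ⟨?_⟩, ?_, ?_⟩
  · simp only [μ, Measure.coe_finsetSum, Finset.sum_apply, Measure.smul_apply, smul_eq_mul,
      Measure.map_apply (hm _) MeasurableSet.univ, preimage_univ, measure_univ, mul_one,
      Finset.sum_const, Finset.card_univ, Fintype.card_fin, nsmul_eq_mul]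
    exact ENNReal.mul_inv_cancel (by simp) (by simp)
  · have hc : IsClosed {f : C(ℝ≥0, UnitAddCircle) | LipschitzWith 1 (⇑f) ∧ f 0 = 0} := by
      refine IsClosed.inter ?_ (isClosed_eq (continuous_eval_const 0) continuous_const)
      exact (isClosed_setOfPred_lipschitzWith 1).preimage continuous_coeFun
    rw [ae_iff]
    have hm' : MeasurableSet {f : C(ℝ≥0, UnitAddCircle) | ¬ (LipschitzWith 1 (⇑f) ∧ f 0 = 0)} :=
      hc.measurableSet.compl
    simp only [μ, Measure.coe_finsetSum, Finset.sum_apply, Measure.smul_apply, smul_eq_mul,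
      Measure.map_apply (hm _) hm']
    refine Finset.sum_eq_zero fun i _ => ?_
    have : (fun ω => Phi (ext (pre i) ω)) ⁻¹'
        {f : C(ℝ≥0, UnitAddCircle) | ¬ (LipschitzWith 1 (⇑f) ∧ f 0 = 0)} = ∅ := by
      ext ω
      simp only [mem_preimage, mem_ofPred_eq, mem_empty_iff_false, iff_false, not_not]
      exact ⟨qq_lip _, Phi_zero _⟩
    rw [this, measure_empty, mul_zero]
  · choose B hB hB' using pair_le
    refine (hle _).trans ?_
    have h1 : ∀ i, ∫⁻ ω₁, ∫⁻ g, ∫⁻ a, TT (Phi (ext (pre i) ω₁)) g a ∂volume ∂μ ∂PP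
        ≤ ∑ j : Fin 10, 10⁻¹ * ENNReal.ofReal ((wt i j 0 + wt i j 1 : ℕ) / 16) := by
      intro i
      calc _ ≤ ∫⁻ ω₁, ∑ j : Fin 10, 10⁻¹ * ∫⁻ ω₂, B i j ω₁ ω₂ ∂PP ∂PP := by
            refine lintegral_mono fun ω₁ => (hle _).trans (Finset.sum_le_sum fun j _ => ?_)
            exact mul_le_mul_right (lintegral_mono fun ω₂ => hB' i j ω₁ ω₂) _
        _ = _ := by
            rw [lintegral_finsetSum _ fun j _ => (hB i j).2.1.const_mul _]
            refine Finset.sum_congr rfl fun j _ => ?_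
            rw [lintegral_const_mul _ (hB i j).2.1, (hB i j).2.2]
    calc _ ≤ ∑ i : Fin 10, 10⁻¹ * ∑ j : Fin 10, 10⁻¹ * ENNReal.ofReal ((wt i j 0 + wt i j 1 : ℕ) / 16) :=
          Finset.sum_le_sum fun i _ => mul_le_mul_right (h1 i) _
      _ = 10⁻¹ * (10⁻¹ * ENNReal.ofReal (((∑ i, ∑ j, (wt i j 0 + wt i j 1) : ℕ) : ℝ) / 16)) := by
          simp_rw [← Finset.mul_sum]
          congr 2
          rw [Nat.cast_sum, Finset.sum_div, ENNReal.ofReal_sum_of_nonneg fun _ _ => by positivity]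
          refine Finset.sum_congr rfl fun i _ => ?_
          rw [Nat.cast_sum, Finset.sum_div, ENNReal.ofReal_sum_of_nonneg fun _ _ => by positivity]
      _ = _ := by
          have : (10⁻¹ : ℝ≥0∞) = ENNReal.ofReal (1 / 10) := by
            rw [ENNReal.ofReal_div_of_pos (by norm_num)]; simp
          rw [wt_sum, this, ← ENNReal.ofReal_mul (by norm_num), ← ENNReal.ofReal_mul (by norm_num)]
          norm_num

theorem lower2 (ω₁ ω₂ : ℕ → Bool) (F : UnitAddCircle → ℝ≥0∞)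
    (hF : ∀ N : ℕ, (∀ j < N, ω₂ j = ω₁ j) → ∀ a ∈ Ioo (0 : ℝ) 1,
      ENNReal.ofReal (N / 2 + (if ω₁ N then (1 - a) / 2 else a / 2)) ≤ F (a : UnitAddCircle)) :
    ENNReal.ofReal (1 / 4) + ENNReal.ofReal (1 / 2) * NN ω₁ ω₂ ≤ ∫⁻ a, F a := by
  refine NN_le ω₁ ω₂ _ _ _ fun N hN => ?_
  rw [← UnitAddCircle.lintegral_preimage 0 F, zero_add, ← setLIntegral_congr Ioo_ae_eq_Ioc]
  refine le_trans (le_of_eq ?_) (setLIntegral_mono' measurableSet_Ioo (hF N hN))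
  rw [setLIntegral_congr Ioo_ae_eq_Ioc, ← ENNReal.ofReal_natCast N, ← ENNReal.ofReal_mul (by norm_num),
    ← ENNReal.ofReal_add (by norm_num) (by positivity)]
  have hN0 : (0 : ℝ) ≤ N := by positivity
  split_ifs
  · have := lint_aff 0 1 (N / 2 + 1 / 2) (-1 / 2) (by norm_num) fun a ha => by linarith [ha.2]
    refine Eq.trans ?_ (this.symm.trans ?_)
    · congr 1; ring
    · congr 1; funext a; congr 1; ring
  · have := lint_aff 0 1 (N / 2) (1 / 2) (by norm_num) fun a ha => by linarith [ha.1]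
    refine Eq.trans ?_ (this.symm.trans ?_)
    · congr 1; ring
    · congr 1; funext a; congr 1; ring

theorem lower3 : ∫⁻ ω₁, ∫⁻ ω₂, (ENNReal.ofReal (1 / 4) + ENNReal.ofReal (1 / 2) * NN ω₁ ω₂) ∂PP ∂PP
    = ENNReal.ofReal (3 / 4) := by
  rw [((good_const _).add (good_NN.mul _)).2.2, mul_one, ← ENNReal.ofReal_add (by norm_num) (by norm_num)]
  norm_num

end Pool.Agent.H.MP_925b40_pr
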